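import Pool.Agent.helper37.QX.SpecG

set_option autoImplicit false

/-!
# Project QX (MP_07c750), row EXS: expansion of one exponential
-/

open scoped MatrixGroups ContDiff Topology
open MeasureTheory ProbabilityTheory Filter Set Polynomial
open Pool.Agent.QU Pool.Agent.RP

namespace Pool.Agent.QX

/-- operator norm -/
noncomputable def EXS_nm {N : ℕ} (M : Matrix (Fin N) (Fin N) ℂ) : ℝ :=
  ‖Matrix.toEuclideanCLM (n := Fin N) (𝕜 := ℂ) M‖

theorem EXS_nm_nonneg {N : ℕ} (M : Matrix (Fin N) (Fin N) ℂ) : 0 ≤ EXS_nm M := norm_nonneg _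

theorem EXS_nm_mul {N : ℕ} (A B : Matrix (Fin N) (Fin N) ℂ) :
    EXS_nm (A * B) ≤ EXS_nm A * EXS_nm B := by
  unfold EXS_nm
  rw [map_mul]
  exact norm_mul_le _ _

theorem EXS_nm_one {N : ℕ} : EXS_nm (1 : Matrix (Fin N) (Fin N) ℂ) ≤ 1 := by
  unfold EXS_nm
  rw [map_one]
  exact ContinuousLinearMap.norm_id_le

theorem EXS_nm_smul {N : ℕ} (c : ℂ) (A : Matrix (Fin N) (Fin N) ℂ) :
    EXS_nm (c • A) = ‖c‖ * EXS_nm A := by
  unfold EXS_nm
  rw [map_smul, norm_smul]

theorem EXS_ntr {N : ℕ} (hN : 1 ≤ N) (M : Matrix (Fin N) (Fin N) ℂ) : ‖ntr M‖ ≤ EXS_nm M := by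
  have h1 : ∀ a : Fin N, ‖M a a‖ ≤ EXS_nm M := by
    intro a
    have h2 : M a a = (Matrix.toEuclideanCLM (n := Fin N) (𝕜 := ℂ) M
        (EuclideanSpace.single a (1 : ℂ))) a := by
      have h3 : (Matrix.toEuclideanCLM (n := Fin N) (𝕜 := ℂ) M
        (EuclideanSpace.single a (1 : ℂ))) a = (M.mulVec (Pi.single a 1)) a := rfl
      rw [h3, Matrix.mulVec_single_one]
      rfl
    rw [h2]
    refine (PiLp.norm_apply_le _ a).trans ?_
    refine ((Matrix.toEuclideanCLM (n := Fin N) (𝕜 := ℂ) M).le_opNorm _).trans ?_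
    rw [PiLp.norm_single, norm_one, mul_one]
    exact le_refl _
  unfold ntr
  rw [norm_mul, norm_inv, Complex.norm_natCast]
  have h4 : ‖M.trace‖ ≤ N * EXS_nm M := by
    unfold Matrix.trace
    refine (norm_sum_le _ _).trans ?_
    refine (Finset.sum_le_sum fun a _ => h1 a).trans ?_
    rw [Finset.sum_const, Finset.card_univ, Fintype.card_fin, nsmul_eq_mul]
  have hN' : (0 : ℝ) < N := by exact_mod_cast hN
  rw [inv_mul_le_iff₀ hN']
  exact h4

/-- the norm of the point -/
noncomputable def EXS_r {N : ℕ} (x : GI N → ℝ) : ℝ := Real.sqrt (∑ i, x i ^ 2)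

theorem EXS_X (hHSN : HSN_stmt) {N : ℕ} (hN : 1 ≤ N) (x : GI N → ℝ) (i : Fin 4) :
    EXS_nm (XM x i) ≤ EXS_r x := by
  unfold XM
  rw [EXS_nm_smul]
  have h1 : EXS_nm (∑ p : Fin N × Fin N × Bool, (x (i, p) : ℂ) • BM p) ≤
      Real.sqrt (∑ p, x (i, p) ^ 2) := by
    apply ContinuousLinearMap.opNorm_le_bound _ (Real.sqrt_nonneg _)
    intro v
    exact hHSN N (fun p => x (i, p)) v
  have h2 : Real.sqrt (∑ p, x (i, p) ^ 2) ≤ EXS_r x := by
    apply Real.sqrt_le_sqrt
    have h4 : ∑ q : GI N, x q ^ 2 = ∑ j : Fin 4, ∑ p : Fin N × Fin N × Bool, x (j, p) ^ 2 :=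
      Fintype.sum_prod_type _
    rw [h4]
    exact Finset.single_le_sum (f := fun j => ∑ p : Fin N × Fin N × Bool, x (j, p) ^ 2)
      (fun j _ => Finset.sum_nonneg fun p _ => sq_nonneg _) (Finset.mem_univ i)
  have h3 : ‖((Real.sqrt N)⁻¹ : ℂ)‖ ≤ 1 := by
    rw [norm_inv, Complex.norm_real, Real.norm_eq_abs, abs_of_nonneg (Real.sqrt_nonneg _)]
    apply inv_le_one_of_one_le₀
    rw [Real.one_le_sqrt]
    exact_mod_cast hN
  calc _ ≤ 1 * EXS_nm (∑ p : Fin N × Fin N × Bool, (x (i, p) : ℂ) • BM p) :=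
        mul_le_mul_of_nonneg_right h3 (EXS_nm_nonneg _)
    _ ≤ EXS_r x := by
        rw [one_mul]
        exact h1.trans h2

theorem EXS_W (hHSN : HSN_stmt) {N : ℕ} (hN : 1 ≤ N) (x : GI N → ℝ) (w : Wd) :
    EXS_nm (XW x w) ≤ EXS_r x ^ w.length := by
  unfold XW
  induction w with
  | nil =>
    simp only [List.map_nil, List.prod_nil, List.length_nil, pow_zero]
    exact EXS_nm_one
  | cons i w ih =>
    simp only [List.map_cons, List.prod_cons, List.length_cons]
    refine (EXS_nm_mul _ _).trans ?_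
    rw [pow_succ, mul_comm]
    exact mul_le_mul ih (EXS_X hHSN hN x i) (EXS_nm_nonneg _)
      (pow_nonneg (Real.sqrt_nonneg _) _)

/-- a unitary matrix has norm at most one -/
theorem EXS_unit {N : ℕ} (M : Matrix (Fin N) (Fin N) ℂ) (h : star M * M = 1) :
    EXS_nm M ≤ 1 := by
  have hM : M ∈ Matrix.unitaryGroup (Fin N) ℂ := by
    rw [Matrix.mem_unitaryGroup_iff']
    exact h
  apply ContinuousLinearMap.opNorm_le_bound _ zero_le_one
  intro v
  have h1 : ‖isoU N ⟨M, hM⟩ v‖ = ‖v‖ := (isoU N ⟨M, hM⟩).norm_map v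
  rw [one_mul, ← h1]
  exact le_refl _

theorem EXS_star {N : ℕ} (c : ℝ) (x : GI N → ℝ) (s : Fin 4 × Bool) :
    star (ES c x s) * ES c x s = 1 := by
  have hz : star (zs c s.2) = -zs c s.2 := by
    unfold zs
    split_ifs <;> simp
  have h : star (ES c x s) = NormedSpace.exp (-(zs c s.2 • XM x s.1)) := by
    unfold ES
    rw [Matrix.star_eq_conjTranspose, ← Matrix.exp_conjTranspose, ← Matrix.star_eq_conjTranspose,
      star_smul, XM_herm, hz, neg_smul]
  rw [h]
  unfold ES
  have hc : Commute (-(zs c s.2 • XM x s.1)) (zs c s.2 • XM x s.1) :=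
    (Commute.refl _).neg_left
  rw [← Matrix.exp_add_of_commute _ _ hc]
  simp

theorem EXS_EL {N : ℕ} (c : ℝ) (x : GI N → ℝ) (L : List (Fin 4 × Bool)) :
    EXS_nm (EL c x L) ≤ 1 := by
  unfold EL
  induction L with
  | nil =>
    simp only [List.map_nil, List.prod_nil]
    exact EXS_nm_one
  | cons s L ih =>
    simp only [List.map_cons, List.prod_cons]
    refine (EXS_nm_mul _ _).trans ?_
    have h1 := EXS_unit _ (EXS_star c x s)
    calc EXS_nm (ES c x s) * EXS_nm ((L.map (ES c x)).prod) ≤ 1 * 1 :=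
          mul_le_mul h1 ih (EXS_nm_nonneg _) zero_le_one
      _ = 1 := one_mul 1

theorem EXS_contX {N : ℕ} (i : Fin 4) : Continuous (fun x : GI N → ℝ => XM x i) := by
  unfold XM
  refine Continuous.fun_const_smul ?_ _
  refine continuous_finsetSum _ fun p _ => ?_
  have h : Continuous (fun x : GI N → ℝ => ((x (i, p) : ℝ) : ℂ)) :=
    Complex.continuous_ofReal.comp (continuous_apply (i, p))
  have h' : Continuous (fun _ : GI N → ℝ => (BM p : Matrix (Fin N) (Fin N) ℂ)) := continuous_const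
  exact h.smul h'

open scoped Matrix.Norms.Operator in
theorem EXS_contE {N : ℕ} (c : ℝ) (s : Fin 4 × Bool) :
    Continuous (fun x : GI N → ℝ => ES c x s) := by
  have h : Continuous (fun x : GI N → ℝ => zs c s.2 • XM x s.1) :=
    (EXS_contX s.1).fun_const_smul _
  have h' : Continuous (NormedSpace.exp : Matrix (Fin N) (Fin N) ℂ → Matrix (Fin N) (Fin N) ℂ) :=
    NormedSpace.exp_continuous
  exact h'.comp h

theorem EXS_contL {N : ℕ} (c : ℝ) (L : List (Fin 4 × Bool)) :
    Continuous (fun x : GI N → ℝ => EL c x L) := by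
  unfold EL
  induction L with
  | nil =>
    simp only [List.map_nil, List.prod_nil]
    exact continuous_const
  | cons s L ih =>
    simp only [List.map_cons, List.prod_cons]
    exact (EXS_contE c s).mul ih

theorem EXS_contW {N : ℕ} (w : Wd) : Continuous (fun x : GI N → ℝ => XW x w) := by
  unfold XW
  induction w with
  | nil =>
    simp only [List.map_nil, List.prod_nil]
    exact continuous_const
  | cons s L ih =>
    simp only [List.map_cons, List.prod_cons]
    exact (EXS_contX s).mul ih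

open scoped Matrix.Norms.Operator in
theorem EXS_sum {N : ℕ} (c : ℝ) (x : GI N → ℝ) (s : Fin 4 × Bool) :
    HasSum (fun j : ℕ => (zs c s.2 ^ j / (j.factorial : ℂ)) • (XM x s.1) ^ j) (ES c x s) := by
  have h1 := NormedSpace.exp_series_hasSum_exp' (𝕂 := ℂ) (zs c s.2 • XM x s.1)
  have h2 : (fun n : ℕ => ((n.factorial : ℂ))⁻¹ • (zs c s.2 • XM x s.1) ^ n) =
      fun j : ℕ => (zs c s.2 ^ j / (j.factorial : ℂ)) • (XM x s.1) ^ j := by
    ext1 n
    rw [_root_.smul_pow, smul_smul]
    congr 1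
    rw [div_eq_inv_mul]
  rw [h2] at h1
  exact h1

theorem EXS_rep {N : ℕ} (x : GI N → ℝ) (u : Wd) (i : Fin 4) (j : ℕ) :
    XW x (u ++ List.replicate j i) = XW x u * XM x i ^ j := by
  unfold XW
  rw [List.map_append, List.prod_append, List.map_replicate, List.prod_replicate]

theorem EXS (hHSN : HSN_stmt) (hINX : INX_stmt) : EXS_stmt := by
  intro N c u i b L hN
  have hz : ‖zs c b‖ = |c| := by
    unfold zs
    split_ifs <;> simp
  have hsum : ∀ x : GI N → ℝ, HasSum (fun j : ℕ => |c| ^ j / (j.factorial : ℝ) *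
      EXS_r x ^ (u.length + j)) (EXS_r x ^ u.length * Real.exp (|c| * EXS_r x)) := by
    intro x
    have h1 := (NormedSpace.expSeries_div_hasSum_exp (|c| * EXS_r x)).mul_left
      (EXS_r x ^ u.length)
    rw [← Real.exp_eq_exp_ℝ] at h1
    have h2 : (fun j : ℕ => |c| ^ j / (j.factorial : ℝ) * EXS_r x ^ (u.length + j)) =
        fun j : ℕ => EXS_r x ^ u.length * ((|c| * EXS_r x) ^ j / (j.factorial : ℝ)) := by
      ext j
      rw [mul_pow, pow_add]
      ring
    rw [h2]
    exact h1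
  have hmain := hasSum_integral_of_dominated_convergence (μ := gau (GI N))
    (F := fun j : ℕ => fun x : GI N → ℝ => zs c b ^ j / (j.factorial : ℂ) *
      ntr (XW x (u ++ List.replicate j i) * EL c x L))
    (f := fun x : GI N → ℝ => ntr (XW x u * EL c x ((i, b) :: L)))
    (fun j : ℕ => fun x : GI N → ℝ => |c| ^ j / (j.factorial : ℝ) * EXS_r x ^ (u.length + j))
    ?_ ?_ ?_ ?_ ?_
  · have h0 : ∀ j : ℕ, (∫ x : GI N → ℝ, zs c b ^ j / (j.factorial : ℂ) *
        ntr (XW x (u ++ List.replicate j i) * EL c x L) ∂(gau (GI N))) =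
        zs c b ^ j / (j.factorial : ℂ) *
          ∫ x, ntr (XW x (u ++ List.replicate j i) * EL c x L) ∂(gau (GI N)) :=
      fun j => integral_const_mul _ _
    rw [← funext h0]
    exact hmain
  · intro j
    apply Continuous.aestronglyMeasurable
    apply Continuous.mul continuous_const
    unfold ntr
    apply Continuous.mul continuous_const
    exact ((EXS_contW _).mul (EXS_contL c L)).matrix_trace
  · intro j
    refine Filter.Eventually.of_forall fun x => ?_
    rw [norm_mul, norm_div, norm_pow, hz, Complex.norm_natCast]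
    apply mul_le_mul_of_nonneg_left _ (by positivity)
    refine (EXS_ntr hN _).trans ((EXS_nm_mul _ _).trans ?_)
    have h1 := EXS_W hHSN hN x (u ++ List.replicate j i)
    rw [List.length_append, List.length_replicate] at h1
    calc _ ≤ EXS_r x ^ (u.length + j) * 1 :=
          mul_le_mul h1 (EXS_EL c x L) (EXS_nm_nonneg _) (pow_nonneg (Real.sqrt_nonneg _) _)
      _ = _ := mul_one _
  · exact Filter.Eventually.of_forall fun x => (hsum x).summable
  · have h1 := hINX (GI N) u.length |c|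
    refine h1.congr (Filter.Eventually.of_forall fun x => ?_)
    exact (hsum x).tsum_eq.symm
  · refine Filter.Eventually.of_forall fun x => ?_
    have h1 := ((EXS_sum c x (i, b)).mul_left (XW x u)).mul_right (EL c x L)
    have h2 := (h1.map (Matrix.traceAddMonoidHom (Fin N) ℂ)
      (continuous_id.matrix_trace)).mul_left ((N : ℂ)⁻¹)
    have h3 : XW x u * ES c x (i, b) * EL c x L = XW x u * EL c x ((i, b) :: L) := by
      unfold EL
      rw [List.map_cons, List.prod_cons, Matrix.mul_assoc]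
    rw [h3] at h2
    have h4 : (fun j : ℕ => zs c b ^ j / (j.factorial : ℂ) *
        ntr (XW x (u ++ List.replicate j i) * EL c x L)) = fun j : ℕ => (N : ℂ)⁻¹ *
        ((Matrix.traceAddMonoidHom (Fin N) ℂ) ∘ fun j : ℕ =>
          XW x u * ((zs c (i, b).2 ^ j / (j.factorial : ℂ)) • XM x (i, b).1 ^ j) * EL c x L) j := by
      ext j
      show _ = (N : ℂ)⁻¹ * (XW x u * ((zs c b ^ j / (j.factorial : ℂ)) • XM x i ^ j) *
        EL c x L).trace
      rw [EXS_rep, Matrix.mul_smul, Matrix.smul_mul, Matrix.trace_smul, smul_eq_mul]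
      unfold ntr
      ring
    rw [h4]
    exact h2

end Pool.Agent.QX
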