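import Pool.Agent.helper37.QX.SpecG

set_option autoImplicit false

/-!
# Project QX (MP_07c750), row GMO: moments of the standard normal distribution
-/

open scoped MatrixGroups ContDiff Topology
open MeasureTheory ProbabilityTheory Filter Set Polynomial
open Pool.Agent.QU Pool.Agent.RP

namespace Pool.Agent.QX

theorem GMO_int (n : ℕ) : Integrable (fun t : ℝ => t ^ n) (gaussianReal 0 1) := by
  have h1 : MemLp (id : ℝ → ℝ) (n : ENNReal) (gaussianReal 0 1) :=
    memLp_id_gaussianReal' (n : ENNReal) (ENNReal.natCast_ne_top n)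
  have h2 := h1.integrable_norm_pow'
  refine h2.mono' (by fun_prop) (Filter.Eventually.of_forall fun t => ?_)
  rw [norm_pow]
  exact le_refl _

theorem GMO_pdf (n : ℕ) : Integrable (fun t : ℝ => t ^ n * gaussianPDFReal 0 1 t) := by
  have h1 := GMO_int n
  rw [gaussianReal_of_var_ne_zero 0 one_ne_zero, integrable_withDensity_iff_integrable_smul'
    (measurable_gaussianPDF 0 1) (Filter.Eventually.of_forall fun x => gaussianPDF_lt_top)] at h1
  refine h1.congr (Filter.Eventually.of_forall fun t => ?_)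
  simp only [toReal_gaussianPDF, smul_eq_mul]
  ring

theorem GMO_deriv (t : ℝ) :
    HasDerivAt (gaussianPDFReal 0 1) (-(t * gaussianPDFReal 0 1 t)) t := by
  have h1 : gaussianPDFReal 0 1 = fun x : ℝ =>
      (Real.sqrt (2 * Real.pi * ((1 : NNReal) : ℝ)))⁻¹ *
        Real.exp (-(x - 0) ^ 2 / (2 * ((1 : NNReal) : ℝ))) := rfl
  rw [h1]
  have h2 : HasDerivAt (fun x : ℝ => -(x - 0) ^ 2 / (2 * ((1 : NNReal) : ℝ))) (-t) t := by
    have h3 : (fun x : ℝ => -(x - 0) ^ 2 / (2 * ((1 : NNReal) : ℝ))) =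
        fun x : ℝ => -(x ^ 2) / 2 := by
      ext x
      simp
    rw [h3]
    have h4 := ((hasDerivAt_pow 2 t).neg).div_const 2
    have h5 : -(((2 : ℕ) : ℝ) * t ^ (2 - 1)) / 2 = -t := by
      norm_num
      ring
    rw [h5] at h4
    exact h4
  have h6 := (h2.exp).const_mul (Real.sqrt (2 * Real.pi * ((1 : NNReal) : ℝ)))⁻¹
  have h7 : (Real.sqrt (2 * Real.pi * ((1 : NNReal) : ℝ)))⁻¹ *
      (Real.exp (-(t - 0) ^ 2 / (2 * ((1 : NNReal) : ℝ))) * -t) =
      -(t * ((Real.sqrt (2 * Real.pi * ((1 : NNReal) : ℝ)))⁻¹ *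
        Real.exp (-(t - 0) ^ 2 / (2 * ((1 : NNReal) : ℝ))))) := by ring
  rw [h7] at h6
  exact h6

theorem GMO : GMO_stmt := by
  refine ⟨GMO_int, integral_id_gaussianReal, fun n => ?_⟩
  rw [integral_gaussianReal_eq_integral_smul one_ne_zero,
    integral_gaussianReal_eq_integral_smul one_ne_zero]
  have h1 : ∫ (x : ℝ), x ^ (n + 1) * -(x * gaussianPDFReal 0 1 x) =
      - ∫ (x : ℝ), (((n + 1 : ℕ) : ℝ) * x ^ n) * gaussianPDFReal 0 1 x := by
    apply integral_mul_deriv_eq_deriv_mul_of_integrable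
    · intro x _
      have h2 := hasDerivAt_pow (n + 1) x
      simp only [Nat.add_sub_cancel] at h2
      exact h2
    · intro x _
      exact GMO_deriv x
    · have h3 := (GMO_pdf (n + 2)).neg
      refine h3.congr (Filter.Eventually.of_forall fun t => ?_)
      simp only [Pi.neg_apply, Pi.mul_apply]
      ring
    · have h3 := (GMO_pdf n).const_mul ((n + 1 : ℕ) : ℝ)
      refine h3.congr (Filter.Eventually.of_forall fun t => ?_)
      simp only [Pi.mul_apply]
      ring
    · exact GMO_pdf (n + 1)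
  have h4 : ∫ (x : ℝ), gaussianPDFReal 0 1 x • x ^ (n + 2) =
      - ∫ (x : ℝ), x ^ (n + 1) * -(x * gaussianPDFReal 0 1 x) := by
    rw [← integral_neg]
    refine integral_congr_ae (Filter.Eventually.of_forall fun x => ?_)
    simp only [smul_eq_mul]
    ring
  rw [h4, h1, neg_neg, ← integral_const_mul]
  refine integral_congr_ae (Filter.Eventually.of_forall fun x => ?_)
  simp only [smul_eq_mul]
  push_cast
  ring

end Pool.Agent.QX
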