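import Pool.Agent.helper37.QX.SpecG

set_option autoImplicit false

/-!
# Project QX (MP_07c750), row INX: integrability of `r^m e^(cr)` for the Gaussian measure
-/

open scoped MatrixGroups ContDiff Topology
open MeasureTheory ProbabilityTheory Filter Set Polynomial
open Pool.Agent.QU Pool.Agent.RP

namespace Pool.Agent.QX

theorem INX_exp (a : ℝ) : Integrable (fun t : ℝ => Real.exp (a * |t|)) (gaussianReal 0 1) := by
  have h1 : Integrable (fun t : ℝ => Real.exp (a * t) + Real.exp (-a * t)) (gaussianReal 0 1) :=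
    (integrable_exp_mul_gaussianReal a).add (integrable_exp_mul_gaussianReal (-a))
  refine h1.mono' (by fun_prop) (Filter.Eventually.of_forall fun t => ?_)
  rw [Real.norm_eq_abs, abs_of_pos (Real.exp_pos _)]
  rcases abs_cases t with ⟨h, _⟩ | ⟨h, _⟩
  · rw [h]
    linarith [Real.exp_pos (-a * t)]
  · rw [h]
    have h2 : a * -t = -a * t := by ring
    rw [h2]
    linarith [Real.exp_pos (a * t)]

theorem INX : INX_stmt := by
  intro ι _ m c
  have h1 : Integrable (fun x : ι → ℝ => (m.factorial : ℝ) *
      ∏ i, Real.exp ((|c| + 1) * |x i|)) (gau ι) := by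
    apply Integrable.const_mul
    unfold gau
    exact Integrable.fintype_prod (f := fun _ t => Real.exp ((|c| + 1) * |t|))
      fun _ => INX_exp (|c| + 1)
  refine h1.mono' (Continuous.aestronglyMeasurable (by fun_prop))
    (Filter.Eventually.of_forall fun x => ?_)
  set r := Real.sqrt (∑ i, x i ^ 2) with hr
  have hr0 : 0 ≤ r := Real.sqrt_nonneg _
  have hr1 : r ≤ ∑ i, |x i| := by
    rw [hr]
    apply Real.sqrt_le_iff.2
    refine ⟨Finset.sum_nonneg fun i _ => abs_nonneg _, ?_⟩
    have h2 := Finset.sum_sq_le_sq_sum_of_nonneg (s := Finset.univ) (f := fun i => |x i|)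
      (fun i _ => abs_nonneg _)
    simpa only [sq_abs] using h2
  rw [Real.norm_eq_abs, abs_of_nonneg (by positivity)]
  have h3 : r ^ m ≤ m.factorial * Real.exp r := by
    have h4 := Real.pow_div_factorial_le_exp r hr0 m
    rw [div_le_iff₀ (by positivity)] at h4
    linarith
  have h5 : Real.exp (c * r) ≤ Real.exp (|c| * r) := by
    apply Real.exp_le_exp.2
    exact mul_le_mul_of_nonneg_right (le_abs_self c) hr0
  have h6 : ∏ i, Real.exp ((|c| + 1) * |x i|) = Real.exp ((|c| + 1) * ∑ i, |x i|) := by
    rw [← Real.exp_sum, Finset.mul_sum]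
  rw [h6]
  have h7 : Real.exp r * Real.exp (|c| * r) ≤ Real.exp ((|c| + 1) * ∑ i, |x i|) := by
    rw [← Real.exp_add]
    apply Real.exp_le_exp.2
    have h8 : r + |c| * r = (|c| + 1) * r := by ring
    rw [h8]
    exact mul_le_mul_of_nonneg_left hr1 (by positivity)
  calc r ^ m * Real.exp (c * r) ≤ (m.factorial * Real.exp r) * Real.exp (|c| * r) :=
        mul_le_mul h3 h5 (Real.exp_nonneg _) (by positivity)
    _ = m.factorial * (Real.exp r * Real.exp (|c| * r)) := by ring
    _ ≤ _ := mul_le_mul_of_nonneg_left h7 (by positivity)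

end Pool.Agent.QX
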