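import Pool.Agent.helper37.QX.SpecG

set_option autoImplicit false

/-!
# Project QX (MP_07c750), row STN: Stein's lemma for polynomials
-/

open scoped MatrixGroups ContDiff Topology
open MeasureTheory ProbabilityTheory Filter Set Polynomial
open Pool.Agent.QU Pool.Agent.RP

namespace Pool.Agent.QX

/-- complex moments -/
noncomputable def STN_c (n : ℕ) : ℂ := ∫ t : ℝ, (t : ℂ) ^ n ∂(gaussianReal 0 1)

theorem STN_c_eq (n : ℕ) : STN_c n = ((∫ t : ℝ, t ^ n ∂(gaussianReal 0 1) : ℝ) : ℂ) := by
  unfold STN_c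
  rw [← integral_complex_ofReal]
  refine integral_congr_ae (Filter.Eventually.of_forall fun t => ?_)
  simp only
  push_cast
  rfl

theorem STN_c_rec (hGMO : GMO_stmt) (n : ℕ) : STN_c (n + 1) = n * STN_c (n - 1) := by
  obtain ⟨_, h2, h3⟩ := hGMO
  cases n with
  | zero =>
    rw [STN_c_eq]
    simp [h2]
  | succ n =>
    rw [STN_c_eq, STN_c_eq, h3 n]
    push_cast
    rfl

theorem STN_mono {ι : Type} [Fintype ι] (x : ι → ℝ) (s : ι →₀ ℕ) (a : ℂ) :
    evx x (MvPolynomial.monomial s a) = a * ∏ i, (x i : ℂ) ^ (s i) := by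
  unfold evx
  rw [MvPolynomial.eval_monomial, Finsupp.prod_fintype]
  intro i
  exact pow_zero _

theorem STN_int1 (hGMO : GMO_stmt) (n : ℕ) :
    Integrable (fun t : ℝ => (t : ℂ) ^ n) (gaussianReal 0 1) := by
  have h1 := (hGMO.1 n).ofReal (𝕜 := ℂ)
  refine h1.congr (Filter.Eventually.of_forall fun t => ?_)
  push_cast
  rfl

theorem STN_intm (hGMO : GMO_stmt) {ι : Type} [Fintype ι] (s : ι →₀ ℕ) (a : ℂ) :
    Integrable (fun x : ι → ℝ => evx x (MvPolynomial.monomial s a)) (gau ι) := by
  simp only [STN_mono]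
  apply Integrable.const_mul
  unfold gau
  exact Integrable.fintype_prod (f := fun i t => ((t : ℝ) : ℂ) ^ (s i))
    fun i => STN_int1 hGMO (s i)

theorem STN_vm {ι : Type} [Fintype ι] (s : ι →₀ ℕ) (a : ℂ) :
    ∫ x : ι → ℝ, evx x (MvPolynomial.monomial s a) ∂(gau ι) = a * ∏ i, STN_c (s i) := by
  simp only [STN_mono]
  rw [integral_const_mul]
  congr 1
  unfold gau
  exact integral_fintype_prod_eq_prod (fun i t => ((t : ℝ) : ℂ) ^ (s i))

theorem STN_intP (hGMO : GMO_stmt) {ι : Type} [Fintype ι] (P : MvPolynomial ι ℂ) :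
    Integrable (fun x : ι → ℝ => evx x P) (gau ι) := by
  induction P using MvPolynomial.induction_on' with
  | monomial s a => exact STN_intm hGMO s a
  | add p q hp hq =>
    simp only [map_add]
    exact hp.add hq

theorem STN (hGMO : GMO_stmt) : STN_stmt := by
  intro ι _ _ P
  refine ⟨STN_intP hGMO P, fun p => ?_⟩
  have hX : ∀ (x : ι → ℝ) (Q : MvPolynomial ι ℂ),
      (x p : ℂ) * evx x Q = evx x (MvPolynomial.X p * Q) := by
    intro x Q
    rw [map_mul]
    unfold evx
    rw [MvPolynomial.eval_X]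
  simp only [hX]
  induction P using MvPolynomial.induction_on' with
  | monomial s a =>
    have h1 : (MvPolynomial.X p : MvPolynomial ι ℂ) * MvPolynomial.monomial s a =
        MvPolynomial.monomial (s + Finsupp.single p 1) a := by
      rw [MvPolynomial.X, MvPolynomial.monomial_mul, one_mul, add_comm]
    rw [h1, MvPolynomial.pderiv_monomial, STN_vm, STN_vm]
    rw [← Finset.mul_prod_erase Finset.univ
      (fun i => STN_c ((s + Finsupp.single p 1 : ι →₀ ℕ) i)) (Finset.mem_univ p),
      ← Finset.mul_prod_erase Finset.univ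
      (fun i => STN_c ((s - Finsupp.single p 1 : ι →₀ ℕ) i)) (Finset.mem_univ p)]
    have h2 : ∏ i ∈ Finset.univ.erase p, STN_c ((s + Finsupp.single p 1 : ι →₀ ℕ) i) =
        ∏ i ∈ Finset.univ.erase p, STN_c (s i) := by
      refine Finset.prod_congr rfl fun i hi => ?_
      rw [Finsupp.add_apply, Finsupp.single_eq_of_ne (Finset.ne_of_mem_erase hi), add_zero]
    have h3 : ∏ i ∈ Finset.univ.erase p, STN_c ((s - Finsupp.single p 1 : ι →₀ ℕ) i) =
        ∏ i ∈ Finset.univ.erase p, STN_c (s i) := by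
      refine Finset.prod_congr rfl fun i hi => ?_
      rw [Finsupp.tsub_apply, Finsupp.single_eq_of_ne (Finset.ne_of_mem_erase hi), Nat.sub_zero]
    rw [h2, h3, Finsupp.add_apply, Finsupp.tsub_apply, Finsupp.single_eq_same,
      STN_c_rec hGMO (s p)]
    ring
  | add q r hq hr =>
    simp only [mul_add, map_add]
    have hi := STN_intP hGMO (ι := ι)
    rw [integral_add (hi _) (hi _), integral_add (hi _) (hi _), hq, hr]

end Pool.Agent.QX
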